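import Pool.Agent.Helper38.RS.Goals1

/-!
# Project RS, packet P1
-/

namespace Pool.Agent.Helper13.RS

open NumberField Polynomial Module IsDedekindDomain TensorProduct Pool.Agent.Helper51.SigLeo
  Pool.Agent.Helper38.RS

section gen

variable {k : Type} [NormedField k] {K M H : Type} [Field K] [NumberField K] [Field M]
  [NumberField M] [Field H] [NumberField H] [Algebra K M] [Algebra M H] [Algebra K H]
  {m : ℕ} {δ : M ≃ₐ[K] M} {γ δ' : H ≃ₐ[K] H} {T : Set (K →+* k)} {a : 𝓞 K} {s : H}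

theorem s_ne (h : HData K M H m δ γ δ' T a s) : s ≠ 0 := by
  intro hs
  have h1 := h.sq
  rw [hs, zero_pow two_ne_zero] at h1
  have h2 : ((a : 𝓞 K) : K) = 0 := by
    apply (algebraMap K H).injective
    rw [← h1, map_zero]
  exact h.ne (by exact_mod_cast h2)

theorem exists_rep (h : HData K M H m δ γ δ' T a s) (x : H) :
    ∃ α β : M, x = algebraMap M H α + algebraMap M H β * s := by
  have hli : LinearIndependent M ![(1 : H), s] := by
    rw [LinearIndependent.pair_iff]
    intro α β hαβ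
    rw [Algebra.smul_def, Algebra.smul_def, mul_one] at hαβ
    have h1 := congrArg γ hαβ
    rw [map_add, map_mul, h.γM, h.γM, h.γs, map_zero] at h1
    have h2 : (2 : H) * algebraMap M H α = 0 := by linear_combination hαβ + h1
    have h3 : algebraMap M H α = 0 := by
      rcases mul_eq_zero.1 h2 with h4 | h4
      · exact absurd h4 two_ne_zero
      · exact h4
    have h5 : algebraMap M H β * s = 0 := by rw [h3, zero_add] at hαβ; exact hαβ
    have h6 : algebraMap M H β = 0 := by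
      rcases mul_eq_zero.1 h5 with h4 | h4
      · exact h4
      · exact absurd h4 (s_ne h)
    exact ⟨(algebraMap M H).injective (by rw [h3, map_zero]),
      (algebraMap M H).injective (by rw [h6, map_zero])⟩
  have hfin : FiniteDimensional M H := by
    apply Module.finite_of_finrank_pos
    rw [h.degH]; norm_num
  have htop := hli.span_eq_top_of_card_eq_finrank (by rw [Fintype.card_fin, h.degH])
  have hx : x ∈ Submodule.span M (Set.range ![(1 : H), s]) := by rw [htop]; trivial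
  have hr : Set.range ![(1 : H), s] = {1, s} := by
    simp [Matrix.range_cons, Set.pair_comm]
  rw [hr, Submodule.mem_span_pair] at hx
  obtain ⟨α, β, hαβ⟩ := hx
  refine ⟨α, β, ?_⟩
  rw [← hαβ, Algebra.smul_def, Algebra.smul_def, mul_one]

theorem aut_ext (h : HData K M H m δ γ δ' T a s) {σ τ : H ≃ₐ[K] H}
    (hM : ∀ x : M, σ (algebraMap M H x) = τ (algebraMap M H x)) (hs : σ s = τ s) : σ = τ := by
  ext x
  obtain ⟨α, β, rfl⟩ := exists_rep h x
  rw [map_add, map_add, map_mul, map_mul, hM, hM, hs]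

theorem γγ (h : HData K M H m δ γ δ' T a s) (x : H) : γ (γ x) = x := by
  have h1 : γ * γ = 1 := by
    apply aut_ext h
    · intro x
      rw [AlgEquiv.mul_apply, h.γM, h.γM, AlgEquiv.one_apply]
    · rw [AlgEquiv.mul_apply, h.γs, map_neg, h.γs, neg_neg, AlgEquiv.one_apply]
  have := DFunLike.congr_fun h1 x
  rwa [AlgEquiv.mul_apply, AlgEquiv.one_apply] at this

theorem comm (h : HData K M H m δ γ δ' T a s) (x : H) : γ (δ' x) = δ' (γ x) := by
  have h1 : γ * δ' = δ' * γ := by
    apply aut_ext h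
    · intro x
      rw [AlgEquiv.mul_apply, AlgEquiv.mul_apply, h.γM, h.δM, h.γM]
    · rw [AlgEquiv.mul_apply, AlgEquiv.mul_apply, h.γs, h.δs, map_neg, h.γs, h.δs]
  have := DFunLike.congr_fun h1 x
  rwa [AlgEquiv.mul_apply, AlgEquiv.mul_apply] at this

theorem pow_m (h : HData K M H m δ γ δ' T a s) : δ' ^ m = 1 := by
  have hδ : δ ^ m = 1 := by rw [← h.order]; exact pow_orderOf_eq_one δ
  have key : ∀ (j : ℕ) (x : M), (δ' ^ j) (algebraMap M H x) = algebraMap M H ((δ ^ j) x) := by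
    intro j
    induction j with
    | zero => intro x; rw [pow_zero, pow_zero, AlgEquiv.one_apply, AlgEquiv.one_apply]
    | succ j ih =>
      intro x
      rw [pow_succ, pow_succ, AlgEquiv.mul_apply, AlgEquiv.mul_apply, h.δM, ih]
  have key2 : ∀ j : ℕ, (δ' ^ j) s = s := by
    intro j
    induction j with
    | zero => rw [pow_zero, AlgEquiv.one_apply]
    | succ j ih => rw [pow_succ, AlgEquiv.mul_apply, h.δs, ih]
  apply aut_ext h
  · intro x
    rw [key, hδ, AlgEquiv.one_apply, AlgEquiv.one_apply]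
  · rw [key2, AlgEquiv.one_apply]

end gen

section roots

theorem totient_dvd (e : ℕ) : (2 ^ e).totient ∣ 2 ^ e := by
  rcases Nat.eq_zero_or_pos e with rfl | he0
  · simp
  · rw [Nat.totient_prime_pow Nat.prime_two he0]
    simp only [Nat.add_one_sub_one, mul_one]
    exact pow_dvd_pow 2 (Nat.sub_le _ _)

/-- An automorphism of odd order fixes the roots of unity of `2`-power order. -/
theorem fix_two {K H : Type} [Field K] [Field H] [Algebra K H] {δ' : H ≃ₐ[K] H} {m : ℕ}
    (hm : Odd m) (hδ : δ' ^ m = 1) {x : H} {n : ℕ} (hx : x ^ 2 ^ n = 1) : δ' x = x := by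
  obtain ⟨e, -, he⟩ := (Nat.dvd_prime_pow Nat.prime_two).1 (orderOf_dvd_of_pow_eq_one hx)
  have hprim : IsPrimitiveRoot x (2 ^ e) := by rw [← he]; exact IsPrimitiveRoot.orderOf x
  have hpos : 0 < 2 ^ e := by positivity
  have : NeZero (2 ^ e) := ⟨hpos.ne'⟩
  have hx0 : x ≠ 0 := by
    rintro rfl
    have := hprim.pow_eq_one
    rw [zero_pow hpos.ne'] at this
    exact zero_ne_one this
  obtain ⟨X, hX⟩ : ∃ X : Hˣ, (X : H) = x := ⟨Units.mk0 x hx0, rfl⟩
  have hXo : orderOf X = 2 ^ e := by rw [← he, ← hX, orderOf_units]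
  have h1 : (δ' x) ^ 2 ^ e = 1 := by rw [← map_pow, hprim.pow_eq_one, map_one]
  obtain ⟨i, hi, hix⟩ := hprim.eq_pow_of_pow_eq_one h1
  have hprim' : IsPrimitiveRoot (x ^ i) (2 ^ e) := by
    rw [hix]
    exact hprim.map_of_injective δ'.injective
  have hcop : Nat.Coprime i (2 ^ e) := (hprim.pow_iff_coprime hpos i).1 hprim'
  have key : ∀ j : ℕ, (δ' ^ j) x = x ^ i ^ j := by
    intro j
    induction j with
    | zero => rw [pow_zero, pow_zero, pow_one, AlgEquiv.one_apply]
    | succ j ih =>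
      rw [pow_succ, AlgEquiv.mul_apply, ← hix, map_pow, ih, ← pow_mul, pow_succ]
  have h2 := key m
  rw [hδ, AlgEquiv.one_apply] at h2
  have h3 : i ^ m ≡ 1 [MOD 2 ^ e] := by
    rw [← hXo]
    apply pow_eq_pow_iff_modEq.1
    apply Units.ext
    rw [pow_one, Units.val_pow_eq_pow_val, hX]; exact h2.symm
  set w : (ZMod (2 ^ e))ˣ := ZMod.unitOfCoprime i hcop with hw
  have h4 : w ^ m = 1 := by
    apply Units.ext
    rw [Units.val_pow_eq_pow_val, ZMod.coe_unitOfCoprime, Units.val_one]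
    have := (ZMod.natCast_eq_natCast_iff _ _ _).2 h3
    rwa [Nat.cast_pow, Nat.cast_one] at this
  have h5 : orderOf w ∣ m := orderOf_dvd_of_pow_eq_one h4
  have h6 : orderOf w ∣ 2 ^ e := by
    have h7 : orderOf w ∣ Fintype.card (ZMod (2 ^ e))ˣ := orderOf_dvd_card
    rw [ZMod.card_units_eq_totient] at h7
    exact h7.trans (totient_dvd e)
  have h8 : orderOf w = 1 := by
    have hc : Nat.Coprime m (2 ^ e) := (hm.coprime_two_right).pow_right e
    exact Nat.eq_one_of_dvd_coprimes hc h5 h6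
  have h9 : w = 1 := orderOf_eq_one_iff.1 h8
  have h10 : i ≡ 1 [MOD 2 ^ e] := by
    have := congrArg Units.val h9
    rw [ZMod.coe_unitOfCoprime, Units.val_one] at this
    apply (ZMod.natCast_eq_natCast_iff _ _ _).1
    rw [this, Nat.cast_one]
  rw [← hix]
  rw [← hXo] at h10
  have h11 := congrArg Units.val (pow_eq_pow_iff_modEq.2 h10)
  rwa [pow_one, Units.val_pow_eq_pow_val, hX] at h11

end roots

section bc

variable {k : Type} [Field k] {A B C : Type} [AddCommGroup A] [AddCommGroup B] [AddCommGroup C]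

/-- The extension of a homomorphism. -/
noncomputable def bc (k : Type) [Field k] (f : A →+ B) : (k ⊗[ℤ] A) →ₗ[k] (k ⊗[ℤ] B) :=
  f.toIntLinearMap.baseChange k

theorem bc_comp (f : A →+ B) (g : B →+ C) (z : k ⊗[ℤ] A) : bc k g (bc k f z) = bc k (g.comp f) z := by
  unfold bc
  induction z with
  | zero => simp
  | tmul x y => simp
  | add x y hx hy => rw [map_add, map_add, map_add, hx, hy]

theorem bc_extEnd (f : A →+ A) (z : k ⊗[ℤ] A) : extEnd f z = bc k f z := rfl

theorem bc_sub (f g : A →+ B) (z : k ⊗[ℤ] A) : bc k (f - g) z = bc k f z - bc k g z := by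
  unfold bc
  induction z with
  | zero => simp
  | tmul x y => simp [TensorProduct.tmul_sub]
  | add x y hx hy => rw [map_add, map_add, map_add, hx, hy]; abel

theorem bc_id (z : k ⊗[ℤ] A) : bc k (AddMonoidHom.id A) z = z := by
  unfold bc
  induction z with
  | zero => simp
  | tmul x y => simp
  | add x y hx hy => rw [map_add, hx, hy]

theorem extHom_bc (f : A →+ B) (g : B →+ k) (z : k ⊗[ℤ] A) :
    extHom g (bc k f z) = extHom (g.comp f) z := by
  unfold bc extHom
  induction z with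
  | zero => simp
  | tmul x y => simp
  | add x y hx hy => rw [map_add, map_add, map_add, hx, hy]

end bc

section units

variable {K H : Type} [Field K] [Field H] [Algebra K H]

/-- The element of `H` given by a unit. -/
def el (u : Additive (𝓞 H)ˣ) : H := ((u.toMul : 𝓞 H) : H)

theorem el_inj {u v : Additive (𝓞 H)ˣ} (h : el u = el v) : u = v := by
  apply Additive.toMul.injective
  apply Units.ext
  exact RingOfIntegers.ext h

theorem el_add (u v : Additive (𝓞 H)ˣ) : el (u + v) = el u * el v := by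
  unfold el
  rw [toMul_add, Units.val_mul]
  exact map_mul (algebraMap (𝓞 H) H) _ _

theorem el_zero : el (0 : Additive (𝓞 H)ˣ) = 1 := by
  unfold el
  rw [toMul_zero, Units.val_one]
  exact map_one (algebraMap (𝓞 H) H)

theorem el_nsmul (n : ℕ) (u : Additive (𝓞 H)ˣ) : el (n • u) = el u ^ n := by
  induction n with
  | zero => rw [zero_smul, el_zero, pow_zero]
  | succ n ih => rw [succ_nsmul, el_add, ih, pow_succ]

theorem el_unitsHom (τ : H ≃ₐ[K] H) (u : Additive (𝓞 H)ˣ) : el (unitsHom τ u) = τ (el u) := rfl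

theorem el_sum {ι : Type*} (S : Finset ι) (f : ι → Additive (𝓞 H)ˣ) :
    el (∑ i ∈ S, f i) = ∏ i ∈ S, el (f i) := by
  classical
  induction S using Finset.induction_on with
  | empty => rw [Finset.sum_empty, Finset.prod_empty, el_zero]
  | insert i S hi ih => rw [Finset.sum_insert hi, Finset.prod_insert hi, el_add, ih]

theorem el_iter (τ : H ≃ₐ[K] H) (u : Additive (𝓞 H)ˣ) (j : ℕ) :
    el ((unitsHom τ)^[j] u) = (τ ^ j) (el u) := by
  induction j with
  | zero => rw [Function.iterate_zero, id_eq, pow_zero, AlgEquiv.one_apply]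
  | succ j ih => rw [Function.iterate_succ_apply', el_unitsHom, ih, pow_succ', AlgEquiv.mul_apply]

/-- The units with `u γ(u) = 1`. -/
noncomputable def UU (γ : H ≃ₐ[K] H) : AddSubgroup (Additive (𝓞 H)ˣ) :=
  (AddMonoidHom.id _ + unitsHom γ).ker

theorem mem_UU {γ : H ≃ₐ[K] H} {u : Additive (𝓞 H)ˣ} : u ∈ UU γ ↔ u + unitsHom γ u = 0 := by
  unfold UU
  rw [AddMonoidHom.mem_ker, AddMonoidHom.add_apply, AddMonoidHom.id_apply]

theorem mem_UU' {γ : H ≃ₐ[K] H} {u : Additive (𝓞 H)ˣ} : u ∈ UU γ ↔ el u * γ (el u) = 1 := by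
  rw [mem_UU]
  constructor
  · intro h
    rw [← el_unitsHom, ← el_add, h, el_zero]
  · intro h
    apply el_inj
    rw [el_add, el_unitsHom, h, el_zero]

theorem fin_UU [NumberField H] (γ : H ≃ₐ[K] H) : Module.Finite ℤ (UU γ) := by
  have h1 : Module.Finite ℤ (Additive (𝓞 H)ˣ) := inferInstance
  have h2 : IsNoetherian ℤ (Additive (𝓞 H)ˣ) := inferInstance
  exact Module.Finite.of_injective (UU γ).subtype.toIntLinearMap Subtype.val_injective

end units

theorem iter_add {A : Type} [AddCommGroup A] (δ : A →+ A) (j : ℕ) (x y : A) :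
    δ^[j] (x + y) = δ^[j] x + δ^[j] y := by
  induction j with
  | zero => rfl
  | succ j ih =>
    rw [Function.iterate_succ_apply', Function.iterate_succ_apply', Function.iterate_succ_apply',
      ih, map_add]

/-- Shift of the sequence. -/
theorem shift {A : Type} [AddCommGroup A] (δ : A →+ A) (S : Finset ℕ) (u : ℕ → A)
    (h1 : ∀ N, ∃ b, u N = u 0 + 2 • b) (h2 : ¬ ∃ b, u 0 = 2 • b)
    (h3 : ∃ b, ∑ j ∈ S, δ^[j] (u 0) = 2 • b) (c : ℕ) :
    (∀ N, ∃ b, u (N + c) = u (0 + c) + (b + b)) ∧ (¬ ∃ b, u (0 + c) = b + b) ∧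
      ∃ b, ∑ j ∈ S, δ^[j] (u (0 + c)) = b + b := by
  simp only [Nat.zero_add]
  choose b hb using h1
  obtain ⟨b', hb'⟩ := h3
  refine ⟨fun N => ⟨b (N + c) - b c, ?_⟩, ?_, ⟨b' + ∑ j ∈ S, δ^[j] (b c), ?_⟩⟩
  · have h4 := hb (N + c)
    have h5 := hb c
    rw [two_nsmul] at h4 h5
    rw [h4, h5]
    abel
  · rintro ⟨t, ht⟩
    apply h2
    refine ⟨t - b c, ?_⟩
    have h5 := hb c
    rw [ht] at h5
    rw [two_nsmul] at h5 ⊢
    have h6 : u 0 = t + t - (b c + b c) := by rw [h5]; abel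
    rw [h6]; abel
  · have h5 := hb c
    rw [h5, two_nsmul]
    simp only [iter_add]
    rw [Finset.sum_add_distrib, Finset.sum_add_distrib, hb', two_nsmul]
    abel

theorem s_p1 (h1 : S_LA) (h2 : S_RAT) (h3 : S_HIL) : S_P1 := by
  intro k _ _ _ _ hι L K M H _ _ _ _ _ _ _ _ _ _ m δ γ δ' T a s ζ Φ P hPhi hH hSel z hzγ hzδ hzL
  by_contra hz0
  have hchar : CharZero k := charZero_of_injective_algebraMap (algebraMap ℚ_[2] k).injective
  -- the maps
  have hq : ∀ u : Additive (𝓞 H)ˣ,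
      (AddMonoidHom.id (Additive (𝓞 H)ˣ) - unitsHom γ) u ∈ UU γ := by
    intro u
    rw [mem_UU, AddMonoidHom.sub_apply, AddMonoidHom.id_apply, map_sub]
    have h4 : unitsHom γ (unitsHom γ u) = u := by
      apply el_inj
      rw [el_unitsHom, el_unitsHom, γγ hH]
    rw [h4]; abel
  have hd : ∀ u : UU γ, unitsHom δ' (u : Additive (𝓞 H)ˣ) ∈ UU γ := by
    intro u
    have h4 := mem_UU'.1 u.2
    rw [mem_UU', el_unitsHom, comm hH, ← map_mul, h4, map_one]
  let i : UU γ →+ Additive (𝓞 H)ˣ := (UU γ).subtype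
  let q : Additive (𝓞 H)ˣ →+ UU γ :=
    (AddMonoidHom.id (Additive (𝓞 H)ˣ) - unitsHom γ).codRestrict (UU γ) hq
  let δU : UU γ →+ UU γ := ((unitsHom δ').comp i).codRestrict (UU γ) hd
  have hiq : i.comp q = AddMonoidHom.id (Additive (𝓞 H)ˣ) - unitsHom γ := rfl
  have hδq : δU.comp q = q.comp (unitsHom δ') := by
    apply DFunLike.ext
    intro u
    apply Subtype.ext
    change unitsHom δ' ((AddMonoidHom.id (Additive (𝓞 H)ˣ) - unitsHom γ) u) =
      (AddMonoidHom.id (Additive (𝓞 H)ˣ) - unitsHom γ) (unitsHom δ' u)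
    rw [AddMonoidHom.sub_apply, AddMonoidHom.id_apply, AddMonoidHom.sub_apply,
      AddMonoidHom.id_apply, map_sub]
    congr 1
    apply el_inj
    rw [el_unitsHom, el_unitsHom, el_unitsHom, el_unitsHom, comm hH]
  have hi2 : bc k i (bc k q z) = (2 : k) • z := by
    rw [bc_comp, hiq, bc_sub, bc_id]
    have h4 : bc k (unitsHom γ) z = -z := hzγ
    rw [h4, sub_neg_eq_add, two_smul]
  have hz' : bc k q z ≠ 0 := by
    intro h4
    rw [h4, map_zero] at hi2
    rcases smul_eq_zero.1 hi2.symm with h5 | h5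
    · exact two_ne_zero h5
    · exact hz0 h5
  have hδz' : extEnd δU (bc k q z) = ζ • bc k q z := by
    have h4 : extEnd δU (bc k q z) = bc k δU (bc k q z) := rfl
    rw [h4, bc_comp, hδq, ← bc_comp]
    have h5 : bc k (unitsHom δ') z = ζ • z := hzδ
    rw [h5, map_smul]
  -- iterates
  have hit : ∀ (j : ℕ) (u : UU γ), ((δU^[j] u : UU γ) : Additive (𝓞 H)ˣ) =
      (unitsHom δ')^[j] (u : Additive (𝓞 H)ˣ) := by
    intro j
    induction j with
    | zero => intro u; rfl
    | succ j ih =>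
      intro u
      rw [Function.iterate_succ_apply', Function.iterate_succ_apply', ← ih]
      rfl
  have hδm : ∀ u : UU γ, δU^[m] u = u := by
    intro u
    apply Subtype.ext
    rw [hit]
    apply el_inj
    rw [el_iter, pow_m hH, AlgEquiv.one_apply]
  have h2pow : ∀ (u : UU γ) (n : ℕ), 2 ^ n • u = 0 → δU u = u := by
    intro u n hu
    apply Subtype.ext
    apply el_inj
    change el (unitsHom δ' (u : Additive (𝓞 H)ˣ)) = el (u : Additive (𝓞 H)ˣ)
    rw [el_unitsHom]
    apply fix_two hPhi.odd (pow_m hH) (n := n)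
    rw [← el_nsmul]
    have h4 := congrArg (Subtype.val) hu
    rw [AddSubgroup.coe_nsmul, AddSubgroup.coe_zero] at h4
    rw [h4, el_zero]
  -- rationality
  have hcl : PlaceClosed (above (above T : Set (M →+* k)) : Set (H →+* k)) := by
    intro σ τ hστ
    apply hH.closed
    intro x
    exact hστ _
  obtain ⟨n, f, hf0, hfc⟩ := h2 k hι L H _ hcl
  have hf0z := hf0 z hzL
  have hfin := fin_UU γ
  obtain ⟨u, hu1, hu2, hu3, hu4⟩ := h1 k m ζ Φ P hPhi (UU γ) δU hδm h2pow (Fin n)
    (fun j => (f j).comp i) (bc k q z) hz' hδz' (by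
      intro j
      have h4 := extHom_bc (k := k) i
        (((algebraMap ℚ_[2] k : ℚ_[2] →+* k) : ℚ_[2] →+ k).comp (f j)) (bc k q z)
      rw [hi2, map_smul, hf0z j, smul_zero] at h4
      exact h4.symm)
  -- the constant
  have hfinE : Finite (H →+* k) := by
    have : Finite (H →ₐ[ℚ] k) := inferInstance
    exact Finite.of_injective (fun f : H →+* k => f.toRatAlgHom) (fun f g h => by
      ext x; exact DFunLike.congr_fun h x)
  choose! C hC using hfc
  obtain ⟨c, hc⟩ : ∃ c : ℕ, ∀ τ : H →+* k, ∑ j, ‖C τ j‖ ≤ 2 ^ c := by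
    have : Fintype (H →+* k) := Fintype.ofFinite _
    obtain ⟨c, hc⟩ := pow_unbounded_of_one_lt (∑ τ : H →+* k, ∑ j, ‖C τ j‖) (one_lt_two (α := ℝ))
    refine ⟨c, fun τ => le_trans ?_ hc.le⟩
    exact Finset.single_le_sum (f := fun τ : H →+* k => ∑ j, ‖C τ j‖)
      (fun _ _ => Finset.sum_nonneg fun _ _ => norm_nonneg _) (Finset.mem_univ τ)
  obtain ⟨hv1, hv2, hv3⟩ := shift δU P.support u hu1 hu2 hu3 c
  obtain ⟨x, hx, hxs⟩ := h3 k L K M H m δ γ δ' T a s P hH
    (fun N => ((u (N + c) : UU γ) : Additive (𝓞 H)ˣ).toMul)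
    (fun N => mem_UU'.1 (u (N + c)).2)
    (by
      intro N
      obtain ⟨b, hb⟩ := hv1 N
      refine ⟨(b : Additive (𝓞 H)ˣ).toMul, mem_UU'.1 b.2, ?_⟩
      simp only [hb]
      rw [sq]
      rfl)
    (by
      obtain ⟨b, hb⟩ := hv3
      refine ⟨(b : Additive (𝓞 H)ˣ).toMul, mem_UU'.1 b.2, ?_⟩
      have h5 := congrArg (fun v : UU γ => el (v : Additive (𝓞 H)ˣ)) hb
      beta_reduce at h5
      rw [AddSubgroup.coe_add, el_add, AddSubgroup.val_finsetSum, el_sum] at h5
      simp only [hit, el_iter] at h5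
      rw [sq]
      exact h5)
    (by
      intro N τ hτ
      have h4 := hC τ hτ ((u (N + c) : UU γ) : Additive (𝓞 H)ˣ)
      change ‖logUnits L τ ((u (N + c) : UU γ) : Additive (𝓞 H)ˣ)‖ ≤ _
      rw [h4]
      calc ‖∑ j, f j ((u (N + c) : UU γ) : Additive (𝓞 H)ˣ) • C τ j‖
          ≤ ∑ j, ‖f j ((u (N + c) : UU γ) : Additive (𝓞 H)ˣ) • C τ j‖ := norm_sum_le _ _
        _ ≤ ∑ j, (1 / 2 : ℝ) ^ (N + c) * ‖C τ j‖ := by
            apply Finset.sum_le_sum
            intro j _
            rw [norm_smul]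
            exact mul_le_mul_of_nonneg_right (hu4 (N + c) j) (norm_nonneg _)
        _ = (1 / 2 : ℝ) ^ (N + c) * ∑ j, ‖C τ j‖ := by rw [Finset.mul_sum]
        _ ≤ (1 / 2 : ℝ) ^ (N + c) * 2 ^ c := by
            exact mul_le_mul_of_nonneg_left (hc τ) (by positivity)
        _ = (1 / 2 : ℝ) ^ N := by
            rw [pow_add, mul_assoc, ← mul_pow]; norm_num)
  obtain ⟨t, ht1, ht2⟩ := hxs (hSel x hx)
  apply hv2
  have ht : Additive.ofMul t ∈ UU γ := mem_UU'.2 ht1
  refine ⟨⟨Additive.ofMul t, ht⟩, ?_⟩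
  apply Subtype.ext
  apply el_inj
  have h6 := congrArg (fun v : (𝓞 H)ˣ => ((v : 𝓞 H) : H)) ht2
  rw [AddSubgroup.coe_add, el_add]
  simp only [sq] at h6
  exact h6

end Pool.Agent.Helper13.RS
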